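import Pool.Agent.H933.LL.Stm9
import Pool.Agent.H289.LL.Chb3

/-!
# Chain of averages, local version with a general rate
-/

set_option autoImplicit false

open MeasureTheory Metric
open scoped Real

namespace Pool.Agent.H181.LL

open Pool.Agent.H933.LL Pool.Agent.H289.LL

theorem rateW_nonneg {X : Type} [NormedAddCommGroup X] [NormedSpace ℂ X] [CompleteSpace X]
    {S K : X →L[ℂ] X} {E : Set ℂ} {w : ℝ → ℝ} {C : ℝ} (hw : ∀ d, 0 ≤ w d) (hR : RateW S K E w C) :
    0 ≤ C := by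
  obtain ⟨n, φ, f, ρ, hρ, hn, -⟩ := hR.approx 1 one_pos le_rfl
  have h1 : 0 ≤ Real.log ((n : ℝ) + 1) := Real.log_nonneg (by
    have : (0 : ℝ) ≤ n := Nat.cast_nonneg n
    linarith)
  have h2 : 0 ≤ C * (1 + w 1) := h1.trans hn
  have h3 : 0 < 1 + w 1 := by have := hw 1; linarith
  exact nonneg_of_mul_nonneg_left h2 h3

/-- the local estimate with the constants of `RateW` -/
theorem baseW (h : P_loc3) (X : Type) [NormedAddCommGroup X] [NormedSpace ℂ X] [CompleteSpace X]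
    (S K : X →L[ℂ] X) (E : Set ℂ) (w : ℝ → ℝ) (C : ℝ) (hE : IsClosed E) (hne : E.Nonempty)
    (hR : RateW S K E w C) (z₀ v : ℂ) (hz : z₀ ∉ E) (hv : ‖v - z₀‖ < infDist z₀ E / 32)
    (hvr : v ∈ resolventSet ℂ (S + K)) :
    (∀ᵐ u ∂(volume.restrict (ball z₀ (11 * infDist z₀ E / 32))), u ∈ resolventSet ℂ (S + K)) ∧
    ∫⁻ u in ball z₀ (11 * infDist z₀ E / 32), ENNReal.ofReal (Real.posLog ‖resolvent (S + K) u‖)
      ≤ ENNReal.ofReal (π * infDist z₀ E ^ 2 * (25 *
        Real.exp (3 * C * (1 + w (min 1 (infDist z₀ E / 2)))) *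
          (1 + Real.posLog ‖resolvent (S + K) v‖))) := by
  have hδ := infDist_pos hE hne hz
  generalize hδ' : infDist z₀ E = δ at hδ hv
  have hd : 0 < min 1 (δ / 2) := lt_min one_pos (by positivity)
  have hd1 : min 1 (δ / 2) ≤ 1 := min_le_left _ _
  have hd2 : min 1 (δ / 2) ≤ δ / 2 := min_le_right _ _
  generalize hdd : min 1 (δ / 2) = d at hd hd1 hd2
  obtain ⟨n, φ, f, ρ, hρ, hn, hlog, hφ, hres, happ⟩ := hR.approx d hd hd1
  have hball : ∀ u ∈ ball z₀ (δ / 2), δ / 2 ≤ infDist u E := by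
    intro u hu
    have h1 := infDist_le_infDist_add_dist (s := E) (x := z₀) (y := u)
    rw [mem_ball, dist_comm] at hu
    rw [hδ'] at h1
    linarith
  have hout : ∀ u ∈ ball z₀ (δ / 2), u ∉ E := fun u hu =>
    notMem_of_pos (lt_of_lt_of_le (by positivity) (hball u hu))
  obtain ⟨h1, h2⟩ := h X S K z₀ v (δ / 2) ρ (Real.posLog ‖resolvent (S + K) v‖) n φ f
    (by positivity) hρ
    (fun u hu => ⟨hR.res u (hout u hu), hres u (hd2.trans (hball u hu))⟩) hφ happ
    (by linarith) hvr le_rfl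
  have e : 11 * (δ / 2) / 16 = 11 * δ / 32 := by ring
  rw [e] at h1 h2
  refine ⟨h1, h2.trans (ENNReal.ofReal_le_ofReal ?_)⟩
  have h8 : 0 ≤ Real.log ρ := Real.log_nonneg hρ
  have hℓ0 : 0 ≤ Real.posLog ‖resolvent (S + K) v‖ := Real.posLog_nonneg
  generalize Real.posLog ‖resolvent (S + K) v‖ = a at hℓ0
  have hn0 : (0 : ℝ) < (n : ℝ) + 1 := by
    have : (0 : ℝ) ≤ n := Nat.cast_nonneg n
    linarith
  have h9 : ((n : ℝ) + 1) ^ 2 * (1 + Real.log ρ) ≤ Real.exp (3 * C * (1 + w d)) := by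
    have e1 : ((n : ℝ) + 1) ^ 2 * (1 + Real.log ρ) =
        Real.exp (2 * Real.log ((n : ℝ) + 1) + Real.log (1 + Real.log ρ)) := by
      rw [Real.exp_add, Real.exp_log (by linarith), two_mul, Real.exp_add, Real.exp_log hn0]
      ring
    rw [e1]
    apply Real.exp_le_exp.2
    linarith
  calc 100 * (π * (δ / 2) ^ 2) * ((n : ℝ) + 1) ^ 2 * (1 + Real.log ρ) * (1 + a)
      = π * δ ^ 2 * (25 * (((n : ℝ) + 1) ^ 2 * (1 + Real.log ρ)) * (1 + a)) := by ring
    _ ≤ π * δ ^ 2 * (25 * Real.exp (3 * C * (1 + w d)) * (1 + a)) := by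
        apply mul_le_mul_of_nonneg_left _ (by positivity)
        apply mul_le_mul_of_nonneg_right _ (by linarith)
        linarith

/-- one step of the chain -/
theorem stepW (h : P_loc3) (X : Type) [NormedAddCommGroup X] [NormedSpace ℂ X] [CompleteSpace X]
    (S K : X →L[ℂ] X) (E : Set ℂ) (w : ℝ → ℝ) (C : ℝ) (hE : IsClosed E) (hne : E.Nonempty)
    (hw : ∀ d, 0 ≤ w d)
    (hR : RateW S K E w C) (z₀ v z₁ : ℂ) (hz : z₀ ∉ E) (hv : ‖v - z₀‖ < infDist z₀ E / 32)
    (hvr : v ∈ resolventSet ℂ (S + K)) (h01 : ‖z₁ - z₀‖ ≤ infDist z₀ E / 4) :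
    ∃ v₁ : ℂ, ‖v₁ - z₁‖ < infDist z₁ E / 32 ∧ v₁ ∈ resolventSet ℂ (S + K) ∧
      Real.log (1 + Real.posLog ‖resolvent (S + K) v₁‖) ≤
        Real.log (1 + Real.posLog ‖resolvent (S + K) v‖) +
          (Real.log 50001 + 3 * C * (1 + w (min 1 (infDist z₀ E / 2)))) := by
  obtain ⟨h1, h2⟩ := baseW h X S K E w C hE hne hR z₀ v hz hv hvr
  have hC := rateW_nonneg hw hR
  have hδ := infDist_pos hE hne hz
  have hd1 := infDist_le_infDist_add_dist (s := E) (x := z₀) (y := z₁)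
  have hd2 := infDist_le_infDist_add_dist (s := E) (x := z₁) (y := z₀)
  rw [dist_comm, dist_eq_norm] at hd1
  rw [dist_eq_norm] at hd2
  generalize infDist z₀ E = δ at *
  generalize infDist z₁ E = δ₁ at *
  have hδ1 : 3 / 4 * δ ≤ δ₁ := by linarith
  have hδ2 : δ₁ ≤ 5 / 4 * δ := by linarith
  have hδ1p : 0 < δ₁ := by linarith
  set a := Real.posLog ‖resolvent (S + K) v‖ with ha
  have ha0 : 0 ≤ a := Real.posLog_nonneg
  set W := Real.exp (3 * C * (1 + w (min 1 (δ / 2)))) with hW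
  have hW1 : 1 ≤ W := by
    rw [hW]
    apply Real.one_le_exp
    have := hw (min 1 (δ / 2))
    positivity
  set a₁ : ℝ := 50000 * (W * (1 + a)) with ha1
  have hbig : 1 ≤ W * (1 + a) := by nlinarith
  have hsub : ball z₁ (δ₁ / 32) ⊆ ball z₀ (11 * δ / 32) := by
    intro u hu
    rw [mem_ball, dist_eq_norm] at hu ⊢
    have h3 : u - z₀ = (u - z₁) + (z₁ - z₀) := by ring
    rw [h3]
    have := norm_add_le (u - z₁) (z₁ - z₀)
    linarith
  have hex : ∃ v₁ ∈ ball z₁ (δ₁ / 32), v₁ ∈ resolventSet ℂ (S + K) ∧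
      Real.posLog ‖resolvent (S + K) v₁‖ ≤ a₁ := by
    by_contra hcon
    push Not at hcon
    have h3 : ∀ᵐ u ∂(volume.restrict (ball z₁ (δ₁ / 32))), u ∈ resolventSet ℂ (S + K) :=
      ae_mono (Measure.restrict_mono hsub le_rfl) h1
    have h4 : ∀ᵐ u ∂(volume.restrict (ball z₁ (δ₁ / 32))),
        ENNReal.ofReal a₁ ≤ ENNReal.ofReal (Real.posLog ‖resolvent (S + K) u‖) := by
      filter_upwards [h3, ae_restrict_mem measurableSet_ball] with u hu1 hu2
      exact ENNReal.ofReal_le_ofReal (hcon u hu2 hu1).le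
    have h5 := lintegral_mono_ae h4
    rw [setLIntegral_const] at h5
    have h6 := h5.trans ((lintegral_mono_set hsub).trans h2)
    rw [Complex.volume_ball] at h6
    have h7 : ENNReal.ofReal a₁ * (ENNReal.ofReal (δ₁ / 32) ^ 2 * NNReal.pi) =
        ENNReal.ofReal (a₁ * ((δ₁ / 32) ^ 2 * π)) :=
      vol_helper _ _ (by positivity) (by positivity)
    rw [h7, ENNReal.ofReal_le_ofReal_iff (by positivity)] at h6
    have h8 : (3 / 4 * δ) ^ 2 ≤ δ₁ ^ 2 := pow_le_pow_left₀ (by positivity) hδ1 2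
    have hpi := Real.pi_pos
    have h9 : 25 * δ ^ 2 < 50000 * (δ₁ / 32) ^ 2 := by
      have : 0 < δ ^ 2 := by positivity
      nlinarith
    have h10 : π * δ ^ 2 * (25 * W * (1 + a)) < a₁ * ((δ₁ / 32) ^ 2 * π) := by
      have e1 : π * δ ^ 2 * (25 * W * (1 + a)) = (25 * δ ^ 2) * (π * (W * (1 + a))) := by ring
      have e2 : a₁ * ((δ₁ / 32) ^ 2 * π) =
          (50000 * (δ₁ / 32) ^ 2) * (π * (W * (1 + a))) := by
        rw [ha1]; ring
      rw [e1, e2]
      exact mul_lt_mul_of_pos_right h9 (by positivity)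
    linarith
  obtain ⟨v₁, hv1, hv2, hv3⟩ := hex
  rw [mem_ball, dist_eq_norm] at hv1
  refine ⟨v₁, hv1, hv2, ?_⟩
  have hx0 : 0 ≤ Real.posLog ‖resolvent (S + K) v₁‖ := Real.posLog_nonneg
  have h11 : 1 + Real.posLog ‖resolvent (S + K) v₁‖ ≤ 50001 * W * (1 + a) := by
    have : 50001 * W * (1 + a) = a₁ + W * (1 + a) := by
      rw [ha1]; ring
    rw [this]
    linarith
  have h12 := Real.log_le_log (by linarith) h11
  rw [Real.log_mul (by positivity) (by linarith), Real.log_mul (by positivity) (by positivity)] at h12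
  have h13 : Real.log W = 3 * C * (1 + w (min 1 (δ / 2))) := by rw [hW, Real.log_exp]
  rw [h13] at h12
  linarith

theorem p_chb5 (h : P_loc3) : P_chb5 := by
  intro X _ _ _ S K E w C g l r hE hne hw hg hQ hR
  have hC : 0 ≤ C := rateW_nonneg hw hR
  obtain ⟨B, Cq, hB, hchain⟩ := hQ
  obtain ⟨e₀, he₀⟩ := hne
  have hne : E.Nonempty := ⟨e₀, he₀⟩
  let M₀ : ℝ := ∑ b ∈ B, Real.log (1 + Real.posLog ‖resolvent (S + K) b‖)
  let a : ℝ := Real.log 50001
  let C₂ : ℝ := max Cq 0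
  let D₀ : ℝ := 25 * (π * (|r| + ‖l - e₀‖) ^ 2 + 1)
  have hD1 : 1 ≤ D₀ := by
    have h1 : 1 ≤ π * (|r| + ‖l - e₀‖) ^ 2 + 1 := by
      have : 0 ≤ π * (|r| + ‖l - e₀‖) ^ 2 := by positivity
      linarith
    show 1 ≤ 25 * (π * (|r| + ‖l - e₀‖) ^ 2 + 1)
    linarith
  refine ⟨Real.log D₀ + 3 * C * C₂ + (M₀ + (a + 3 * C) * C₂), fun z hz hzE => ?_⟩
  have ha : 0 ≤ a := Real.log_nonneg (by norm_num)
  have hC2 : 0 ≤ C₂ := le_max_right _ _
  have hterm : ∀ u : ℂ, 0 ≤ Real.log (1 + Real.posLog ‖resolvent (S + K) u‖) := by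
    intro u
    have h1 : 0 ≤ Real.posLog ‖resolvent (S + K) u‖ := Real.posLog_nonneg
    exact Real.log_nonneg (by linarith)
  have hM : ∀ b ∈ B, Real.log (1 + Real.posLog ‖resolvent (S + K) b‖) ≤ M₀ := fun b hb =>
    Finset.single_le_sum (f := fun b => Real.log (1 + Real.posLog ‖resolvent (S + K) b‖))
      (fun b _ => hterm b) hb
  have hM0 : 0 ≤ M₀ := Finset.sum_nonneg fun b _ => hterm b
  obtain ⟨N, c, hN, hc0, hcN, hc⟩ := hchain z hz hzE
  have hout : ∀ j, j ≤ N → c j ∉ E := by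
    intro j
    induction j with
    | zero => intro _; exact (hB _ hc0).2
    | succ j ih =>
      intro hj
      have h1 := infDist_pos hE hne (ih (by omega))
      have h2 := hc j (by omega)
      have h3 := infDist_le_infDist_add_dist (s := E) (x := c j) (y := c (j + 1))
      rw [dist_comm, dist_eq_norm] at h3
      exact notMem_of_pos (by linarith)
  let L : ℝ := w (min 1 (infDist z E / 2))
  have hL : 0 ≤ L := hw _
  have hgz : 0 ≤ g z := hg z
  have hsum : ∑ j ∈ Finset.range (N + 1), (1 + w (min 1 (infDist (c j) E / 2))) ≤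
      C₂ * (1 + g z) :=
    hN.trans (mul_le_mul_of_nonneg_right (le_max_left _ _) (by linarith))
  have hpos : ∀ j, 0 ≤ w (min 1 (infDist (c j) E / 2)) := fun j => hw _
  have hLg : 1 + L ≤ C₂ * (1 + g z) := by
    have h1 : 1 + w (min 1 (infDist (c N) E / 2)) ≤
        ∑ j ∈ Finset.range (N + 1), (1 + w (min 1 (infDist (c j) E / 2))) :=
      Finset.single_le_sum (f := fun j => 1 + w (min 1 (infDist (c j) E / 2)))
        (fun j _ => by have := hpos j; linarith) (Finset.mem_range.2 (Nat.lt_succ_self N))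
    rw [hcN] at h1
    exact h1.trans hsum
  have hm : ∀ j, j ≤ N → ∃ v : ℂ, ‖v - c j‖ < infDist (c j) E / 32 ∧
      v ∈ resolventSet ℂ (S + K) ∧ Real.log (1 + Real.posLog ‖resolvent (S + K) v‖) ≤
      M₀ + ∑ i ∈ Finset.range j, (a + 3 * C * (1 + w (min 1 (infDist (c i) E / 2)))) := by
    intro j
    induction j with
    | zero =>
      intro _
      have h1 := hM _ hc0
      have h2 := infDist_pos hE hne (hB _ hc0).2
      refine ⟨c 0, ?_, (hB _ hc0).1, by simpa using h1⟩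
      rw [sub_self, norm_zero]
      linarith
    | succ j ih =>
      intro hj
      obtain ⟨v, hv1, hv2, h1⟩ := ih (by omega)
      obtain ⟨v₁, hv3, hv4, h2⟩ := stepW h X S K E w C hE hne hw hR (c j) v (c (j + 1))
        (hout j (by omega)) hv1 hv2 (hc j (by omega))
      refine ⟨v₁, hv3, hv4, ?_⟩
      rw [Finset.sum_range_succ]
      have h6 : Real.log (1 + Real.posLog ‖resolvent (S + K) v₁‖) ≤
          Real.log (1 + Real.posLog ‖resolvent (S + K) v‖) +
          (a + 3 * C * (1 + w (min 1 (infDist (c j) E / 2)))) := h2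
      linarith
  obtain ⟨v, hv1, hv2, h1⟩ := hm N le_rfl
  rw [hcN] at hv1
  have h3 : ∑ i ∈ Finset.range N, (a + 3 * C * (1 + w (min 1 (infDist (c i) E / 2)))) ≤
      (a + 3 * C) * (C₂ * (1 + g z)) := by
    calc ∑ i ∈ Finset.range N, (a + 3 * C * (1 + w (min 1 (infDist (c i) E / 2))))
        ≤ ∑ i ∈ Finset.range N, (a + 3 * C) * (1 + w (min 1 (infDist (c i) E / 2))) := by
          refine Finset.sum_le_sum fun i _ => ?_
          have := mul_nonneg ha (hpos i)
          nlinarith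
      _ = (a + 3 * C) * ∑ i ∈ Finset.range N, (1 + w (min 1 (infDist (c i) E / 2))) := by
          rw [Finset.mul_sum]
      _ ≤ (a + 3 * C) * ∑ i ∈ Finset.range (N + 1), (1 + w (min 1 (infDist (c i) E / 2))) := by
          refine mul_le_mul_of_nonneg_left ?_ (by positivity)
          rw [Finset.sum_range_succ]
          have := hpos N
          linarith
      _ ≤ _ := mul_le_mul_of_nonneg_left hsum (by positivity)
  have h6 : M₀ ≤ M₀ * (1 + g z) := by nlinarith
  have h7 : Real.log (1 + Real.posLog ‖resolvent (S + K) v‖) ≤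
      (M₀ + (a + 3 * C) * C₂) * (1 + g z) := by
    have e : (M₀ + (a + 3 * C) * C₂) * (1 + g z) =
        M₀ * (1 + g z) + (a + 3 * C) * (C₂ * (1 + g z)) := by ring
    rw [e]
    linarith
  have hδ := infDist_pos hE hne hzE
  obtain ⟨g1, g2⟩ := baseW h X S K E w C hE hne hR z v hzE hv1 hv2
  have hsub : ball z (infDist z E / 4) ⊆ ball z (11 * infDist z E / 32) :=
    ball_subset_ball (by linarith)
  refine ⟨ae_mono (Measure.restrict_mono hsub le_rfl) g1,
    (lintegral_mono_set hsub).trans (g2.trans (ENNReal.ofReal_le_ofReal ?_))⟩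
  have hx0 : 0 ≤ Real.posLog ‖resolvent (S + K) v‖ := Real.posLog_nonneg
  have hδr : infDist z E ≤ |r| + ‖l - e₀‖ := by
    have h8 := infDist_le_dist_of_mem (x := z) he₀
    rw [dist_eq_norm] at h8
    have h9 : ‖z - e₀‖ ≤ ‖z - l‖ + ‖l - e₀‖ := by
      have e : z - e₀ = (z - l) + (l - e₀) := by ring
      rw [e]
      exact norm_add_le _ _
    rw [mem_ball, dist_eq_norm] at hz
    have h10 := le_abs_self r
    linarith
  have hδ2 : π * infDist z E ^ 2 ≤ π * (|r| + ‖l - e₀‖) ^ 2 + 1 := by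
    have h8 : infDist z E ^ 2 ≤ (|r| + ‖l - e₀‖) ^ 2 := pow_le_pow_left₀ hδ.le hδr 2
    have h9 := mul_le_mul_of_nonneg_left h8 Real.pi_pos.le
    linarith
  have hfin : π * infDist z E ^ 2 * (25 * Real.exp (3 * C * (1 + L)) *
      (1 + Real.posLog ‖resolvent (S + K) v‖)) ≤
      Real.exp (Real.log D₀ + 3 * C * (1 + L) +
        Real.log (1 + Real.posLog ‖resolvent (S + K) v‖)) := by
    rw [Real.exp_add, Real.exp_add, Real.exp_log (by linarith), Real.exp_log (by linarith)]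
    calc π * infDist z E ^ 2 * (25 * Real.exp (3 * C * (1 + L)) *
        (1 + Real.posLog ‖resolvent (S + K) v‖)) =
        (25 * (π * infDist z E ^ 2)) * Real.exp (3 * C * (1 + L)) *
        (1 + Real.posLog ‖resolvent (S + K) v‖) := by ring
      _ ≤ (25 * (π * (|r| + ‖l - e₀‖) ^ 2 + 1)) * Real.exp (3 * C * (1 + L)) *
        (1 + Real.posLog ‖resolvent (S + K) v‖) := by gcongr
      _ = _ := rfl
  refine hfin.trans (Real.exp_le_exp.2 ?_)
  have hlD : 0 ≤ Real.log D₀ := Real.log_nonneg hD1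
  have h8 : Real.log D₀ ≤ Real.log D₀ * (1 + g z) := by nlinarith
  have h9 : 3 * C * (1 + L) ≤ 3 * C * (C₂ * (1 + g z)) :=
    mul_le_mul_of_nonneg_left hLg (by positivity)
  show Real.log D₀ + 3 * C * (1 + L) + Real.log (1 + Real.posLog ‖resolvent (S + K) v‖) ≤
    (Real.log D₀ + 3 * C * C₂ + (M₀ + (a + 3 * C) * C₂)) * (1 + g z)
  have e : (Real.log D₀ + 3 * C * C₂ + (M₀ + (a + 3 * C) * C₂)) * (1 + g z) =
      Real.log D₀ * (1 + g z) + 3 * C * (C₂ * (1 + g z)) +
        (M₀ + (a + 3 * C) * C₂) * (1 + g z) := by ring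
  rw [e]
  linarith

end Pool.Agent.H181.LL

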